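import Pool.Agent.Helper35.MS.StE

/-!
Project MS (MP_925021_gt, helper35), module ENE: derivatives of the energy, the Willmore energy and
the area.
-/

set_option autoImplicit false

namespace Helper81.MS

open Helper35.MS Helper35.PI Helper35.PI2 Helper32.CL
open scoped ContDiff Manifold Topology ENNReal BigOperators
open MeasureTheory Set Filter

/-- the function `2|A|² - |H|²` of the invariants -/
private def phT (p : ℝ × ℝ × ℝ × ℝ) : ℝ := 2 * p.1 - p.2.1

private theorem phT_smooth : (cφ phT).Smooth := by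
  refine ⟨?_, contDiff_const, contDiff_const, contDiff_const⟩
  change ContDiff ℝ ∞ phT
  unfold phT
  fun_prop

theorem hENE (hTDJ : StTDJ) (hFVJ : StFVJ) (hMUJ : StMUJ) (hMAJ : StMAJ) (hMLJ : StMLJ)
    (hENJ : StENJ) (hI4J : StI4J) : StENE := by
  intro N M _ _ _ _ _ _ _ J F c χ hset t ht
  have hF := hset.mcf.toIsImmJ
  have hJ : IsOpen J := hF.op
  obtain ⟨-, -, -, p5, p6, p7, -⟩ := (hMLJ 2 N M J F hF 0 0 (cφ phT) phT_smooth).2
  obtain ⟨-, cH, cA, -⟩ := hI4J 2 N M J F hF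
  obtain ⟨s, -, hs⟩ := hMUJ 2 N M J F c χ hset.toJ
  have hTD := hTDJ 2 N M J F c χ hset
  -- slices of continuous functions are continuous
  have hsl : ∀ {V : Type} [TopologicalSpace V] (g : M → ℝ → V), CSTJ J g → ∀ τ ∈ J,
      Continuous (fun q => g q τ) := by
    intro V _ g hg τ hτ
    exact hg.comp_continuous (f := fun q : M => ((q, τ) : M × ℝ)) (by fun_prop)
      (fun q => ⟨mem_univ _, hτ⟩)
  have p5' : CSTJ J (thF 2 F) := p5
  have p6' : CSTJ J (fun q t => deriv (fun s => thF 2 F q s) t) := p6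
  have p7' : ∀ q, ∀ t ∈ J, HasDerivAt (fun s => thF 2 F q s)
      (deriv (fun s => thF 2 F q s) t) t := p7
  obtain ⟨m1, o1, -, -⟩ := hMAJ 2 N M J F hF (1 / 2) t ht
  obtain ⟨cV, iV⟩ := hFVJ 2 N M J F c χ hset.toJ t ht _ m1
  have hY : ∀ τ ∈ J, Continuous (fun q => YF F q τ) := fun τ hτ => by
    unfold YF
    exact ((hsl _ cH τ hτ).norm).pow 2
  have hth : ∀ τ ∈ J, Continuous (fun q => thF 2 F q τ) := fun τ hτ => hsl _ p5' τ hτ
  have hg3 : Continuous (fun q => g3F F q t) := by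
    unfold g3F
    exact ((((hsl _ cH t ht).norm).pow 2).mul (hth t ht)).sub
      ((hsl _ p6' t ht).sub cV)
  have hVz : Integrable (fun q => dvg (n := 2) F (VF 2 (1 / 2) F t) q t) (muM 2 F c χ t) ∧
      ∫ q, dvg (n := 2) F (VF 2 (1 / 2) F t) q t ∂muM 2 F c χ t = 0 := by
    refine ⟨((hs t ht).2.2 _ cV).1, ?_⟩
    rw [← iV]
    refine integral_congr_ae (Eventually.of_forall fun q => ?_)
    change dvg (n := 2) F (VF 2 (1 / 2) F t) q t
      = dvg (n := 2) F (VF 2 (1 / 2) F t) q t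
        + inner ℝ (HH (n := 2) F q t) (VF 2 (1 / 2) F t q)
    rw [o1 q, add_zero]
  have he : HasDerivAt (eI F c χ) (-dI F c χ t) t := by
    have h := hTD.2 (thF 2 F) (fun q t => deriv (fun s => thF 2 F q s) t) p5' p6' p7' t ht
    have h2 : ∫ q, (deriv (fun s => thF 2 F q s) t - ‖HH (n := 2) F q t‖ ^ 2 * thF 2 F q t)
        ∂muM 2 F c χ t = -dI F c χ t := by
      have h3 : ∀ q : M, deriv (fun s => thF 2 F q s) t
          - ‖HH (n := 2) F q t‖ ^ 2 * thF 2 F q t
          = dvg (n := 2) F (VF 2 (1 / 2) F t) q t - g3F F q t := by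
        intro q
        unfold g3F
        ring
      rw [integral_congr_ae (Eventually.of_forall h3)]
      refine (integral_sub hVz.1 ((hs t ht).2.2 _ hg3).1).trans ?_
      rw [hVz.2, zero_sub]
      rfl
    rw [h2] at h
    exact h
  have hw : HasDerivAt (wI F c χ) (-dI F c χ t) t := by
    have h1 := hENJ N M J F c χ hset t ht
    have h2 := he.add (h1.const_mul 2)
    rw [mul_zero, add_zero] at h2
    refine h2.congr_of_eventuallyEq ?_
    filter_upwards [hJ.mem_nhds ht] with τ hτ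
    have i1 : Integrable (fun q => thF 2 F q τ) (muM 2 F c χ τ) :=
      ((hs τ hτ).2.2 _ (hth τ hτ)).1
    have c2 : Continuous (fun q => ‖HH (n := 2) F q τ‖ ^ 2 - AA (n := 2) F q τ) :=
      (((hsl _ cH τ hτ).norm).pow 2).sub (hsl _ cA τ hτ)
    have i2 : Integrable (fun q => ‖HH (n := 2) F q τ‖ ^ 2 - AA (n := 2) F q τ)
      (muM 2 F c χ τ) := ((hs τ hτ).2.2 _ c2).1
    show wI F c χ τ = eI F c χ τ
      + 2 * ∫ q, (‖HH (n := 2) F q τ‖ ^ 2 - AA (n := 2) F q τ) ∂(muM 2 F c χ τ)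
    unfold wI eI
    rw [← integral_const_mul, ← integral_add i1 (i2.const_mul 2)]
    refine integral_congr_ae (Eventually.of_forall fun q => ?_)
    show YF F q τ = thF 2 F q τ + 2 * (‖HH (n := 2) F q τ‖ ^ 2 - AA (n := 2) F q τ)
    unfold YF thF
    ring
  have ha : HasDerivAt (arI F c χ) (-wI F c χ t) t := by
    have h := hTD.2 (fun _ _ => 1) (fun _ _ => 0) continuousOn_const continuousOn_const
      (fun q t _ => hasDerivAt_const t 1) t ht
    have h2 : ∫ q, ((0 : ℝ) - ‖HH (n := 2) F q t‖ ^ 2 * 1) ∂muM 2 F c χ t = -wI F c χ t := by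
      unfold wI
      rw [← integral_neg]
      refine integral_congr_ae (Eventually.of_forall fun q => ?_)
      show (0 : ℝ) - ‖HH (n := 2) F q t‖ ^ 2 * 1 = -YF F q t
      unfold YF
      ring
    rw [h2] at h
    refine h.congr_of_eventuallyEq (Eventually.of_forall fun τ => ?_)
    show arI F c χ τ = ∫ q, (1 : ℝ) ∂muM 2 F c χ τ
    rw [integral_const, smul_eq_mul, mul_one]
    rfl
  exact ⟨hg3, he, hw, ha⟩

end Helper81.MS
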